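import Mathlib
import Pool.Agent.H83.W1

set_option autoImplicit false

namespace Pool.Agent.Results.MP_67ce71_gt.Cocountable

open Set Filter Topology

/-- `r` is a total preorder. -/
def TotalPre {X : Type} (r : X → X → Prop) : Prop :=
  (∀ x, r x x) ∧ (∀ x y z, r x y → r y z → r x z) ∧ ∀ x y, r x y ∨ r y x

/-- `U(x)`, the points strictly above `x`. -/
def up {X : Type} (r : X → X → Prop) (x : X) : Set X := {y | r x y ∧ ¬ r y x}

/-- `L(x)`, the points strictly below `x`. -/
def low {X : Type} (r : X → X → Prop) (x : X) : Set X := {y | r y x ∧ ¬ r x y}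

/-- `u` is a utility representation of `r`. -/
def Rep {X : Type} (r : X → X → Prop) (u : X → ℝ) : Prop := ∀ x y, r x y ↔ u x ≤ u y

/-- Semicontinuous representability property. -/
def SRP (X : Type) [TopologicalSpace X] : Prop :=
  (∀ r : X → X → Prop, TotalPre r → (∀ x, IsOpen (up r x)) →
    ∃ u, Rep r u ∧ ∀ a : ℝ, IsOpen {x | a < u x}) ∧
  (∀ r : X → X → Prop, TotalPre r → (∀ x, IsOpen (low r x)) →
    ∃ u, Rep r u ∧ ∀ a : ℝ, IsOpen {x | u x < a})

/-- Continuous representability property. -/
def CRP (X : Type) [TopologicalSpace X] : Prop :=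
  ∀ r : X → X → Prop, TotalPre r → (∀ x, IsOpen (up r x)) → (∀ x, IsOpen (low r x)) →
    ∃ u, Rep r u ∧ Continuous u

/-- Hereditary continuous representability property. -/
def HCRP (X : Type) [TopologicalSpace X] : Prop := ∀ Y : Set X, Y.Nonempty → CRP Y

theorem rep_countable {X : Type} [Countable X] (r : X → X → Prop) (h : TotalPre r) :
    ∃ u, Rep r u := by
  classical
  obtain ⟨w, hw, c, hc, -⟩ := NNReal.exists_pos_sum_of_countable (ε := 1) one_ne_zero X
  have hs : Summable fun x => (w x : ℝ) := NNReal.summable_coe.2 hc.summable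
  let f : X → X → ℝ := fun x z => if r z x then w z else 0
  have hf : ∀ x, Summable (f x) := fun x => hs.of_nonneg_of_le
    (fun z => by simp only [f]; split_ifs <;> simp) (fun z => by simp only [f]; split_ifs <;> simp)
  have hle : ∀ x y, r x y → f x ≤ f y := fun x y hxy z => by
    simp only [f]
    by_cases hz : r z x
    · rw [if_pos hz, if_pos (h.2.1 _ _ _ hz hxy)]
    · rw [if_neg hz]; split_ifs <;> simp
  refine ⟨fun x => ∑' z, f x z, fun x y => ⟨fun hxy => (hf x).tsum_le_tsum (hle x y hxy) (hf y),
    fun hxy => ?_⟩⟩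
  by_contra hn
  refine absurd hxy (not_le.2 ((hf y).tsum_lt_tsum (i := x)
    (hle y x ((h.2.2 x y).resolve_left hn)) ?_ (hf x)))
  simp only [f, if_neg hn, if_pos (h.1 x)]
  exact_mod_cast hw x

open H83.W1

instance : TopologicalSpace W where
  IsOpen U := U.Nonempty → Uᶜ.Countable
  isOpen_univ := by simp
  isOpen_inter := fun U V hU hV h => by
    rw [compl_inter]; exact (hU (h.mono inter_subset_left)).union (hV (h.mono inter_subset_right))
  isOpen_sUnion := by
    rintro S hS ⟨x, U, hU, h⟩
    exact (hS U hU ⟨x, h⟩).mono (compl_subset_compl.2 (subset_sUnion_of_mem hU))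

theorem W_open {U : Set W} : IsOpen U ↔ (U.Nonempty → Uᶜ.Countable) := Iff.rfl

theorem W_closed {U : Set W} (h : U.Countable) : IsClosed U :=
  isOpen_compl_iff.1 (W_open.2 fun _ => by rwa [compl_compl])

theorem result : ∃ (X : Type) (_ : TopologicalSpace X), T1Space X ∧ HCRP X ∧ ¬ SRP X := by
  refine ⟨W, inferInstance, ⟨fun x => W_closed (countable_singleton x)⟩, fun Y _ r hr hu hl => ?_,
    fun h => ?_⟩
  · by_cases hY : Y.Countable
    · haveI := hY.to_subtype
      obtain ⟨u, hu⟩ := rep_countable r hr
      haveI : DiscreteTopology Y := by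
        rw [discreteTopology_iff_forall_isClosed]
        intro s
        have := (W_closed ((to_countable s).image (Subtype.val))).preimage
          (continuous_subtype_val (p := (· ∈ Y)))
        rwa [preimage_image_eq _ Subtype.val_injective] at this
      exact ⟨u, hu, continuous_of_discreteTopology⟩
    · have hc : ∀ s : Set Y, IsOpen s → s.Nonempty → sᶜ.Countable := by
        rintro _ ⟨U, hU, rfl⟩ ⟨x, hx⟩
        exact (hU ⟨x, hx⟩).preimage_of_injOn Subtype.val_injective.injOn
      refine ⟨fun _ => 0, fun x y => ⟨fun _ => le_rfl, fun _ => ?_⟩, continuous_const⟩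
      by_contra hn
      have hyx := (hr.2.2 x y).resolve_left hn
      have h1 := hc _ (hu y) ⟨x, hyx, hn⟩
      have h2 := hc _ (hl x) ⟨y, hyx, hn⟩
      -- the middle points
      have h3 : ∃ z : Y, z ∈ up r y ∧ z ∈ low r x := by
        by_contra h
        push Not at h
        refine hY (countable_coe_iff.1 (countable_univ_iff.1 ((h1.union h2).mono fun z _ => ?_)))
        by_cases hz : z ∈ up r y
        · exact Or.inr (h z hz)
        · exact Or.inl hz
      obtain ⟨z, hz1, hz2⟩ := h3
      have h4 := hc _ (hu z) ⟨x, hz2⟩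
      have h5 := hc _ (hl z) ⟨y, hz1⟩
      refine hY (countable_coe_iff.1 (countable_univ_iff.1 ((h4.union h5).mono fun t _ => ?_)))
      by_cases ht : t ∈ up r z
      · exact Or.inr fun h => h.2 ht.1
      · exact Or.inl ht
  · obtain ⟨u, hu, -⟩ := h.1 (· ≤ ·) ⟨le_refl, fun _ _ _ => le_trans, le_total⟩ fun x =>
      W_open.2 fun _ => (countable_Iic x).mono fun y hy => by
        by_contra hxy
        exact hy ⟨(not_le.1 hxy).le, hxy⟩
    exact not_strictMono_real u fun a b hab => lt_of_not_ge fun h' => hab.not_ge ((hu b a).2 h')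

end Pool.Agent.Results.MP_67ce71_gt.Cocountable
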